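import Pool.Agent.Helper37.SN.Stmts

set_option autoImplicit false

/-!
Project SN, module FRA: Fourier coefficients of a bump.
-/

namespace Pool.Agent.Helper37.SN

open MeasureTheory Finset
open scoped ENNReal

private theorem fra_rep (u : ℝ) (h1 : -(1 / 2) < u) (h2 : u ≤ 1 / 2) :
    rep ((u : ℝ) : UnitAddCircle) = u := by
  unfold rep
  have hu : u ∈ Set.Ioc (-(1 / 2) : ℝ) (-(1 / 2) + 1) := ⟨h1, by linarith⟩
  exact AddCircle.equivIoc_coe_of_mem (p := (1 : ℝ)) (a := -(1 / 2)) hu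

private theorem fra_haar : haar1 = (volume : Measure UnitAddCircle) := by
  unfold haar1
  have h := AddCircle.volume_eq_smul_haarAddCircle (T := (1 : ℝ))
  rw [ENNReal.ofReal_one, one_smul] at h
  exact h.symm

/-- the Fourier coefficient of a bump around `0`, as an integral over the line -/
private theorem fra_zero (W : ℝ → ℝ) (σ : ℕ) (n : ℤ) (hσ : 3 ≤ σ)
    (hW : ∀ y, 2 ≤ |y| → W y = 0) :
    ∫ u : UnitAddCircle, (fourier (-n) u : ℂ) * ((W (2 ^ σ * rep u) : ℝ) : ℂ) ∂haar1 =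
      ((2 ^ σ : ℝ) : ℂ)⁻¹ * FT W ((n : ℝ) / 2 ^ σ) := by
  have h8 : (8 : ℝ) ≤ 2 ^ σ := by
    calc (8 : ℝ) = 2 ^ 3 := by norm_num
      _ ≤ 2 ^ σ := pow_le_pow_right₀ (by norm_num) hσ
  have hpos : (0 : ℝ) < 2 ^ σ := by positivity
  rw [fra_haar, ← UnitAddCircle.integral_preimage (-(1 / 2))
    (fun u : UnitAddCircle => (fourier (-n) u : ℂ) * ((W (2 ^ σ * rep u) : ℝ) : ℂ))]
  set g : ℝ → ℂ := fun y =>
    Complex.exp (-(((2 * Real.pi * ((n : ℝ) / 2 ^ σ) * y : ℝ) : ℂ) * Complex.I)) *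
      ((W y : ℝ) : ℂ) with hg
  have h1 : ∫ a in Set.Ioc (-(1 / 2) : ℝ) (-(1 / 2) + 1),
      (fourier (-n) (a : UnitAddCircle) : ℂ) * ((W (2 ^ σ * rep (a : UnitAddCircle)) : ℝ) : ℂ) =
      ∫ a in Set.Ioc (-(1 / 2) : ℝ) (-(1 / 2) + 1), g (2 ^ σ * a) := by
    refine setIntegral_congr_fun measurableSet_Ioc ?_
    intro a ha
    have hr : rep ((a : ℝ) : UnitAddCircle) = a := fra_rep a ha.1 (by linarith [ha.2])
    simp only [hg]
    rw [hr, fourier_coe_apply]
    congr 2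
    push_cast
    have : (2 : ℂ) ^ σ ≠ 0 := pow_ne_zero _ two_ne_zero
    field_simp
  rw [h1, setIntegral_eq_integral_of_forall_compl_eq_zero]
  · have h2 := Measure.integral_comp_mul_left g (2 ^ σ : ℝ)
    rw [h2, abs_of_pos (inv_pos.mpr hpos), Complex.real_smul]
    push_cast
    rfl
  · intro a ha
    have : (2 : ℝ) ≤ |2 ^ σ * a| := by
      rw [abs_mul, abs_of_pos hpos]
      have ha' : (1 / 2 : ℝ) ≤ |a| := by
        by_contra hcon
        rw [not_le] at hcon
        have := abs_lt.mp hcon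
        exact ha ⟨this.1, by linarith [this.2]⟩
      calc (2 : ℝ) ≤ 8 * (1 / 2) := by norm_num
        _ ≤ 2 ^ σ * |a| := mul_le_mul h8 ha' (by norm_num) hpos.le
    simp only [hg]
    rw [hW _ this]
    simp

theorem st_FRA : ST_FRA := by
  intro W σ x n hσ _ hW
  unfold fc1 bmp
  rw [← fra_zero W σ n hσ hW, ← integral_const_mul]
  unfold haar1
  rw [← integral_add_right_eq_self (μ := (AddCircle.haarAddCircle : Measure UnitAddCircle))
    (fun t : UnitAddCircle => (fourier (-n) t : ℂ) * ((W (2 ^ σ * rep (t - x)) : ℝ) : ℂ)) x]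
  refine integral_congr_ae (Filter.Eventually.of_forall fun u => ?_)
  simp only [add_sub_cancel_right]
  have : (fourier (-n) (u + x) : ℂ) = (fourier (-n) x : ℂ) * (fourier (-n) u : ℂ) := by
    rw [fourier_apply, fourier_apply, fourier_apply, smul_add, AddCircle.toCircle_add]
    push_cast
    ring
  rw [this, mul_assoc]

end Pool.Agent.Helper37.SN
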